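import Pool.Agent.Helper15.LP.Defs
import Pool.Agent.Helper15.LR.B1b

set_option autoImplicit false

open Finset
open scoped Classical
open Pool.Agent.Helper15.LR

namespace Pool.Agent.Helper15.LP

theorem lp_PPCount : PPCount_stmt := by
  intro ι _ E
  unfold PP un
  simp only [Finset.prod_const, Finset.card_univ]
  rw [← Finset.sum_filter, Finset.sum_const, nsmul_eq_mul, one_div, inv_pow, div_eq_mul_inv]

theorem lp_PPCond1 : PPCond1_stmt := by
  intro ι κ _ hdec _ w E k δ hw hw1 h
  obtain rfl : hdec = (fun a b => Classical.propDecidable (a = b)) := Subsingleton.elim _ _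
  have hinv : Function.Involutive
      (fun xp : (ι → κ) × κ => ((Function.update xp.1 k xp.2, xp.1 k) : (ι → κ) × κ)) := by
    rintro ⟨x, p⟩
    simp
  have hprod : ∀ (x : ι → κ) (p : κ),
      (∏ i, w (x i)) * w p = (∏ i, w (Function.update x k p i)) * w (x k) := by
    intro x p
    rw [← Finset.mul_prod_erase univ (fun i => w (x i)) (mem_univ k),
      ← Finset.mul_prod_erase univ (fun i => w (Function.update x k p i)) (mem_univ k)]
    have h2 : ∏ i ∈ univ.erase k, w (Function.update x k p i) = ∏ i ∈ univ.erase k, w (x i) := by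
      refine Finset.prod_congr rfl fun i hi => ?_
      rw [Function.update_of_ne (Finset.ne_of_mem_erase hi)]
    rw [h2, Function.update_self]
    ring
  have h1 : PP (fun _ : ι => w) E =
      ∑ xp : (ι → κ) × κ, (if xp.1 ∈ E then (∏ i, w (xp.1 i)) * w xp.2 else 0) := by
    unfold PP
    rw [Fintype.sum_prod_type]
    refine Finset.sum_congr rfl fun x _ => ?_
    by_cases hx : x ∈ E
    · simp only [if_pos hx]
      rw [← Finset.mul_sum, hw1, mul_one]
    · simp only [if_neg hx]
      simp
  have h2 : ∑ xp : (ι → κ) × κ, (if xp.1 ∈ E then (∏ i, w (xp.1 i)) * w xp.2 else 0) =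
      ∑ xp : (ι → κ) × κ, (if Function.update xp.1 k xp.2 ∈ E then
        (∏ i, w (xp.1 i)) * w xp.2 else 0) := by
    rw [← Equiv.sum_comp hinv.toPerm]
    refine Finset.sum_congr rfl fun xp _ => ?_
    obtain ⟨x, p⟩ := xp
    show (if Function.update x k p ∈ E then
      (∏ i, w (Function.update x k p i)) * w (x k) else 0) = _
    by_cases hx : Function.update x k p ∈ E
    · rw [if_pos hx, if_pos hx]
      exact (hprod x p).symm
    · rw [if_neg hx, if_neg hx]
  rw [h1, h2, Fintype.sum_prod_type]
  calc ∑ x : ι → κ, ∑ p, (if Function.update x k p ∈ E then (∏ i, w (x i)) * w p else 0)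
      = ∑ x : ι → κ, (∏ i, w (x i)) * ∑ p, (if Function.update x k p ∈ E then w p else 0) := by
        refine Finset.sum_congr rfl fun x _ => ?_
        rw [Finset.mul_sum]
        refine Finset.sum_congr rfl fun p _ => ?_
        split_ifs <;> simp
    _ ≤ ∑ x : ι → κ, (∏ i, w (x i)) * δ := by
        refine Finset.sum_le_sum fun x _ => ?_
        exact mul_le_mul_of_nonneg_left (h x) (Finset.prod_nonneg fun i _ => hw _)
    _ = δ := by
        rw [← Finset.sum_mul, B1b_sum_prod (fun _ : ι => w)]
        simp [hw1]

theorem lp_PPCond2 : PPCond2_stmt := by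
  intro ι κ _ _ w Q i j hij hw1
  have key : ∀ p q : κ, ∑ x : ι → κ, (if x i = p ∧ x j = q then ∏ l, w (x l) else 0) =
      w p * w q := by
    intro p q
    have e1 : ∀ x : ι → κ, (if x i = p ∧ x j = q then ∏ l, w (x l) else 0) =
        ∏ l, (w (x l) * (if l = i then (if x l = p then 1 else 0) else
          if l = j then (if x l = q then 1 else 0) else 1)) := by
      intro x
      rw [Finset.prod_mul_distrib]
      by_cases h : x i = p ∧ x j = q
      · rw [if_pos h]
        have : ∏ l, (if l = i then (if x l = p then (1 : ℝ) else 0) else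
            if l = j then (if x l = q then 1 else 0) else 1) = 1 := by
          refine Finset.prod_eq_one fun l _ => ?_
          by_cases h1 : l = i
          · subst h1; simp [h.1]
          · by_cases h2 : l = j
            · subst h2; simp [h1, h.2]
            · simp [h1, h2]
        rw [this, mul_one]
      · rw [if_neg h]
        have : ∏ l, (if l = i then (if x l = p then (1 : ℝ) else 0) else
            if l = j then (if x l = q then 1 else 0) else 1) = 0 := by
          by_cases h1 : x i = p
          · have h2 : x j ≠ q := fun h2 => h ⟨h1, h2⟩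
            refine Finset.prod_eq_zero (mem_univ j) ?_
            simp [hij.symm, h2]
          · refine Finset.prod_eq_zero (mem_univ i) ?_
            simp [h1]
        rw [this, mul_zero]
    simp_rw [e1]
    rw [B1b_sum_prod (fun l k => w k * (if l = i then (if k = p then 1 else 0) else
          if l = j then (if k = q then 1 else 0) else 1))]
    rw [← Finset.mul_prod_erase univ _ (mem_univ i),
      ← Finset.mul_prod_erase (univ.erase i) _ (Finset.mem_erase.2 ⟨hij.symm, mem_univ j⟩)]
    have e2 : ∏ l ∈ (univ.erase i).erase j, ∑ k, (w k * (if l = i then (if k = p then 1 else 0) else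
          if l = j then (if k = q then 1 else 0) else 1)) = 1 := by
      refine Finset.prod_eq_one fun l hl => ?_
      have h2 := Finset.ne_of_mem_erase hl
      have h1 := Finset.ne_of_mem_erase (Finset.mem_of_mem_erase hl)
      simp [h1, h2, hw1]
    rw [e2, mul_one]
    simp [hij.symm]
  unfold PP
  have e3 : ∀ x : ι → κ, (if x ∈ {x : ι → κ | Q (x i) (x j)} then ∏ l, w (x l) else 0) =
      ∑ p, ∑ q, (if Q p q then (if x i = p ∧ x j = q then ∏ l, w (x l) else 0) else 0) := by
    intro x
    rw [Finset.sum_eq_single (x i) (fun p _ hp => Finset.sum_eq_zero fun q _ => by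
        rw [if_neg (c := x i = p ∧ x j = q) (fun h => hp h.1.symm)]; simp)
        (fun h => absurd (mem_univ _) h)]
    rw [Finset.sum_eq_single (x j) (fun q _ hq => by
        rw [if_neg (c := x i = x i ∧ x j = q) (fun h => hq h.2.symm)]; simp)
        (fun h => absurd (mem_univ _) h)]
    simp
  simp_rw [e3]
  rw [Finset.sum_comm]
  refine Finset.sum_congr rfl fun p _ => ?_
  rw [Finset.sum_comm]
  refine Finset.sum_congr rfl fun q _ => ?_
  by_cases h : Q p q
  · simp only [if_pos h]
    exact key p q
  · simp only [if_neg h]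
    simp

theorem lp_PPUnion : PPUnion_stmt := by
  intro ι κ J _ _ _ w E B hw h
  unfold PP
  rw [Finset.sum_comm]
  refine Finset.sum_le_sum fun x _ => ?_
  have h0 : 0 ≤ ∏ i, w i (x i) := Finset.prod_nonneg fun i _ => hw i (x i)
  have hnn : ∀ j ∈ (univ : Finset J), 0 ≤ (if x ∈ B j then ∏ i, w i (x i) else 0) := by
    intro j _
    split_ifs <;> simp [h0]
  by_cases hx : x ∈ E
  · rw [if_pos hx]
    obtain ⟨j, hj⟩ := h x hx
    have := Finset.single_le_sum hnn (mem_univ j)
    rw [if_pos hj] at this
    exact this
  · rw [if_neg hx]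
    exact Finset.sum_nonneg hnn

end Pool.Agent.Helper15.LP
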