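import Pool.Agent.Helper15.LP.Defs
import Pool.Agent.Helper15.LR.B1b

set_option autoImplicit false

open Finset
open scoped Classical
open Pool.Agent.Helper15.LR

namespace Pool.Agent.Helper15.LP

theorem RADE_mgf (a lam : ℝ) :
    ∑ k : Bool, (1 / 2 : ℝ) * Real.exp (lam * (a * sgn k)) ≤ Real.exp ((lam * a) ^ 2 / 2) := by
  have h : ∑ k : Bool, (1 / 2 : ℝ) * Real.exp (lam * (a * sgn k)) = Real.cosh (lam * a) := by
    rw [Fintype.sum_bool, Real.cosh_eq]
    simp only [sgn]
    simp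
    ring_nf
  rw [h]
  exact Real.cosh_le_exp_half_sq _

theorem lp_RADE : Rade_stmt := by
  intro ι _ a A s hA ha hs
  have h := B1b_tail2 (un : ι → Bool → ℝ) univ (fun i k => a i * sgn k)
    (fun i => (s / A * a i) ^ 2 / 2) (s / A) s (fun i k => by simp [un]) (fun i => by
      simp [un]) (div_nonneg hs hA.le)
    (fun i _ => RADE_mgf (a i) (s / A)) (fun i _ => by
      refine (RADE_mgf (a i) (-(s / A))).trans (le_of_eq ?_)
      ring_nf)
  have hsub : PP (un : ι → Bool → ℝ) {x | s < |∑ i, a i * sgn (x i)|} ≤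
      PP (un : ι → Bool → ℝ) {x | s ≤ |∑ i, a i * sgn (x i)|} := by
    have := B1b_PP_le_union (un : ι → Bool → ℝ) (fun i k => by simp [un])
      (A := {x | s < |∑ i, a i * sgn (x i)|}) (B := {x | s ≤ |∑ i, a i * sgn (x i)|}) (C := ∅)
      (fun x hx => Or.inl (le_of_lt (show s < |∑ i, a i * sgn (x i)| from hx)))
    refine this.trans (le_of_eq ?_)
    simp [PP]
  refine (hsub.trans h).trans ?_
  have hsum : ∑ i, (s / A * a i) ^ 2 / 2 - s / A * s ≤ -(s ^ 2 / (2 * A)) := by
    have e1 : ∑ i, (s / A * a i) ^ 2 / 2 = (s / A) ^ 2 / 2 * ∑ i, a i ^ 2 := by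
      rw [Finset.mul_sum]
      refine Finset.sum_congr rfl fun i _ => ?_
      ring
    have e2 : (s / A) ^ 2 / 2 * ∑ i, a i ^ 2 ≤ (s / A) ^ 2 / 2 * A :=
      mul_le_mul_of_nonneg_left ha (by positivity)
    rw [e1]
    refine (sub_le_sub_right e2 _).trans (le_of_eq ?_)
    field_simp
    ring
  have := Real.exp_le_exp.2 hsum
  linarith

end Pool.Agent.Helper15.LP
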