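import Pool.Agent.Helper15.LP.Defs

set_option autoImplicit false

open Finset Matrix
open scoped Classical
open Pool.Agent.Helper15.LR

namespace Pool.Agent.Helper15.LP

theorem TGM_diag {V : Type} [Fintype V] [DecidableEq V] (W : Matrix V V ℝ) (hW : W.IsSymm) :
    ∃ (U : Matrix V V ℝ) (d : V → ℝ), Uᵀ * U = 1 ∧ U * Uᵀ = 1 ∧
      ∀ q : ℕ, W ^ q = U * diagonal (fun i => d i ^ q) * Uᵀ := by
  have hH : W.IsHermitian := by
    rw [Matrix.IsHermitian, Matrix.conjTranspose_eq_transpose_of_trivial]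
    exact hW
  have h1 : (hH.eigenvectorUnitary : Matrix V V ℝ)ᵀ * (hH.eigenvectorUnitary : Matrix V V ℝ) = 1 := by
    have := Unitary.coe_star_mul_self hH.eigenvectorUnitary
    rw [Matrix.star_eq_conjTranspose, Matrix.conjTranspose_eq_transpose_of_trivial] at this
    exact this
  have h2 := mul_eq_one_comm.mp h1
  have hs : W = (hH.eigenvectorUnitary : Matrix V V ℝ) * diagonal hH.eigenvalues *
      (hH.eigenvectorUnitary : Matrix V V ℝ)ᵀ := by
    have := hH.spectral_theorem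
    rw [Unitary.conjStarAlgAut_apply] at this
    rw [Matrix.star_eq_conjTranspose, Matrix.conjTranspose_eq_transpose_of_trivial] at this
    exact this
  obtain ⟨U, hU⟩ : ∃ U : Matrix V V ℝ, U = (hH.eigenvectorUnitary : Matrix V V ℝ) := ⟨_, rfl⟩
  obtain ⟨d, hd⟩ : ∃ d : V → ℝ, d = hH.eigenvalues := ⟨_, rfl⟩
  rw [← hU] at h1 h2 hs
  rw [← hd] at hs
  refine ⟨U, d, h1, h2, fun q => ?_⟩
  clear hU hd hH
  induction q with
  | zero => simp [h2]
  | succ q ih =>
    rw [pow_succ, ih]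
    have e : U * diagonal (fun i => d i ^ q) * Uᵀ * W =
        U * (diagonal (fun i => d i ^ q) * (Uᵀ * U) * diagonal d) * Uᵀ := by
      rw [hs]
      simp only [Matrix.mul_assoc]
    rw [e, h1, Matrix.mul_one, Matrix.diagonal_mul_diagonal]
    rfl

theorem TGM_tr {V : Type} [Fintype V] [DecidableEq V] (K : Matrix V V ℝ) (a b : V → ℝ) :
    (Kᵀ * diagonal a * K * diagonal b).trace = ∑ i, ∑ j, K i j ^ 2 * (a i * b j) := by
  simp only [Matrix.trace, Matrix.diag_apply, Matrix.mul_diagonal]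
  rw [Finset.sum_comm]
  refine Finset.sum_congr rfl fun j _ => ?_
  rw [Matrix.mul_apply, Finset.sum_mul]
  refine Finset.sum_congr rfl fun i _ => ?_
  rw [Matrix.mul_diagonal, Matrix.transpose_apply]
  ring

theorem TGM_scal (x y : ℝ) (r q : ℕ) (hq : q ≤ 2 * r) :
    x ^ q * y ^ (2 * r - q) + x ^ (2 * r - q) * y ^ q ≤ x ^ (2 * r) + y ^ (2 * r) := by
  have key : ∀ (X Y : ℝ) (m n : ℕ), 0 ≤ X → 0 ≤ Y →
      X ^ m * Y ^ n + X ^ n * Y ^ m ≤ X ^ (m + n) + Y ^ (m + n) := by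
    intro X Y m n hX hY
    have h : 0 ≤ (X ^ m - Y ^ m) * (X ^ n - Y ^ n) := by
      rcases le_total X Y with h | h
      · have h1 := pow_le_pow_left₀ hX h m
        have h2 := pow_le_pow_left₀ hX h n
        nlinarith
      · have h1 := pow_le_pow_left₀ hY h m
        have h2 := pow_le_pow_left₀ hY h n
        nlinarith
    rw [pow_add, pow_add]
    nlinarith
  have h1 := key |x| |y| q (2 * r - q) (abs_nonneg _) (abs_nonneg _)
  have h2 : q + (2 * r - q) = 2 * r := by omega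
  rw [h2] at h1
  have hx : |x| ^ (2 * r) = x ^ (2 * r) := by rw [pow_mul, sq_abs, ← pow_mul]
  have hy : |y| ^ (2 * r) = y ^ (2 * r) := by rw [pow_mul, sq_abs, ← pow_mul]
  rw [hx, hy] at h1
  have h3 : x ^ q * y ^ (2 * r - q) ≤ |x| ^ q * |y| ^ (2 * r - q) := by
    rw [← abs_pow, ← abs_pow, ← abs_mul]; exact le_abs_self _
  have h4 : x ^ (2 * r - q) * y ^ q ≤ |x| ^ (2 * r - q) * |y| ^ q := by
    rw [← abs_pow, ← abs_pow, ← abs_mul]; exact le_abs_self _
  linarith

theorem lp_TGM : TraceGM_stmt := by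
  intro V _ _ H W Y r q hH hW hY hq
  obtain ⟨U, d, hU1, hU2, hWq⟩ := TGM_diag W hW
  obtain ⟨Z, e, hZ1, hZ2, hYq⟩ := TGM_diag Y hY
  set K : Matrix V V ℝ := Uᵀ * H * Z with hK
  have hHt : Hᵀ = H := hH
  have hKt : Kᵀ = Zᵀ * H * U := by
    rw [hK, Matrix.transpose_mul, Matrix.transpose_mul, Matrix.transpose_transpose, hHt,
      Matrix.mul_assoc]
  have t1 : ∀ m n : ℕ, (H * W ^ m * H * Y ^ n).trace =
      ∑ i, ∑ j, K i j ^ 2 * (d i ^ m * e j ^ n) := by
    intro m n
    rw [hWq, hYq, ← TGM_tr K (fun i => d i ^ m) (fun j => e j ^ n), hKt]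
    have e1 : H * (U * diagonal (fun i => d i ^ m) * Uᵀ) * H *
        (Z * diagonal (fun i => e i ^ n) * Zᵀ) =
        (H * U * diagonal (fun i => d i ^ m) * Uᵀ * H * Z * diagonal (fun i => e i ^ n)) * Zᵀ := by
      simp only [Matrix.mul_assoc]
    rw [e1, Matrix.trace_mul_comm]
    congr 1
    rw [hK]
    simp only [Matrix.mul_assoc]
  have t2 : (H * H * W ^ (2 * r)).trace = ∑ i, ∑ j, K i j ^ 2 * (d i ^ (2 * r) * 1) := by
    have h := TGM_tr K (fun i => d i ^ (2 * r)) (fun _ => 1)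
    have h' : (diagonal (fun _ : V => (1 : ℝ))) = 1 := Matrix.diagonal_one
    rw [h', Matrix.mul_one] at h
    have e1 : Zᵀ * H * U * diagonal (fun i => d i ^ (2 * r)) * K =
        (Zᵀ * (H * U * diagonal (fun i => d i ^ (2 * r)) * Uᵀ * H)) * Z := by
      rw [hK]; simp only [Matrix.mul_assoc]
    have e2 : H * H * (U * diagonal (fun i => d i ^ (2 * r)) * Uᵀ) =
        H * (H * U * diagonal (fun i => d i ^ (2 * r)) * Uᵀ) := by
      simp only [Matrix.mul_assoc]
    rw [← h, hKt, e1, Matrix.trace_mul_comm _ Z, ← Matrix.mul_assoc Z, hZ2, Matrix.one_mul, hWq, e2,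
      Matrix.trace_mul_comm]
  have t3 : (H * H * Y ^ (2 * r)).trace = ∑ i, ∑ j, K i j ^ 2 * (1 * e j ^ (2 * r)) := by
    have h := TGM_tr K (fun _ => 1) (fun j => e j ^ (2 * r))
    have h' : (diagonal (fun _ : V => (1 : ℝ))) = 1 := Matrix.diagonal_one
    rw [h', Matrix.mul_one] at h
    rw [← h, hKt, hYq]
    have e1 : H * H * (Z * diagonal (fun i => e i ^ (2 * r)) * Zᵀ) =
        (H * H * Z * diagonal (fun i => e i ^ (2 * r))) * Zᵀ := by
      simp only [Matrix.mul_assoc]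
    rw [e1, Matrix.trace_mul_comm]
    congr 1
    have e2 : Zᵀ * H * U * K * diagonal (fun i => e i ^ (2 * r)) =
        Zᵀ * H * (U * Uᵀ) * H * Z * diagonal (fun i => e i ^ (2 * r)) := by
      rw [hK]; simp only [Matrix.mul_assoc]
    rw [e2, hU2, Matrix.mul_one]
    simp only [Matrix.mul_assoc]
  rw [t1, t1, t2, t3, ← Finset.sum_add_distrib, ← Finset.sum_add_distrib]
  refine Finset.sum_le_sum fun i _ => ?_
  rw [← Finset.sum_add_distrib, ← Finset.sum_add_distrib]
  refine Finset.sum_le_sum fun j _ => ?_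
  have := TGM_scal (d i) (e j) r q hq
  nlinarith [sq_nonneg (K i j)]

end Pool.Agent.Helper15.LP
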